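import Pool.Agent.H567.PP.Hard6
import Pool.Graph.R_seed8.R460.GS.Appl

/-!
# Goldbach representations in primorial intervals in the residue classes of EVERY modulus: the asymptotic formula for
`q ≤ x ^ (2 / 3 - ρ)`, the lower bound for `q ≤ x ^ (4 / 5 - ρ)`

There is a set `D` of at most `(log x)^c` integers, whose radicals are all larger than any given power of `log x`,
such that the following holds for EVERY modulus `q` and every residue class `a` modulo `q` for which `gcd(a, q)` is not
divisible by a member of `D`. These are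

* all classes `a` with `rad (gcd (a, q)) ≤ (log x)^B`, in particular all classes with `gcd (a, q) ≤ (log x)^B`, for
  EVERY modulus `q`, and ALL classes, for instance the multiples of `q`, for every modulus `q` with
  `rad q ≤ (log x)^B` (such as `q = 10 ^ k`, or a power of a primorial number `#(j)`, `j` fixed);
* all but at most `q / (log x)^B` of the `q` residue classes, for EVERY modulus `q`;
* ALL classes of every modulus which is not divisible by a member of `D`.

(1) If `q ≤ x ^ (2 / 3 - ρ)`, then all but at most `x / (q (log x)^A)` of the even integers `m ≤ x`, `m ≡ a (mod q)`,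
satisfy the assertion of the problem, and the number of the representations required there is, up to the factor
`1 ± ε`, the one which Hardy and Littlewood predict; the same for the `p` in any window of the `n`-th primorial interval
of a length of at least `#(n) / (log m)^W`.

(2) If `q ≤ x ^ (4 / 5 - ρ)`, then all but at most `x / (q (log x)^A)` of these integers satisfy the assertion of the
problem, and the number of the representations is at least `1 / 21` of the predicted number.

In the starting library the asymptotic formula is proved for the classes with `gcd(a, q) ≤ (log x)^T` only, and the lower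
bound for the moduli up to `x ^ (7 / 10 - ρ)`, in the classes with `gcd(a, q) ≤ (log x)^T` or for all classes of the moduli
which are not divisible by members of a set of large integers (nothing for a given modulus with large prime powers, like
`10 ^ k`, and a class like `0`).

Definition used (in `Pool.Agent.H560R3.GB`): `sing m = 2 C₂ ∏_{p ∣ m, p > 2} (p - 1) / (p - 2)`, the singular series,
where `C₂ = ∏_{p > 2} (1 - 1 / (p - 1) ^ 2)` is the twin prime constant.

Proof: `H567/HW`, `H567/PP` (`PP/Hard3`, `PP/Hard4`, `PP/Hard6`; a sketch is in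
`Results/MP_dd84fd_nt/EveryModulusEveryClass.lean`) and the counting in primorial intervals `W93/PG` of the library.
-/

set_option autoImplicit false

namespace Pool.Agent.Results.MP_484fb8_nt.EveryClassEveryModulus

open Finset
open Pool.Agent.H560R3.GB (sing)

/-- The radical: the product of the prime factors. -/
def rad (n : ℕ) : ℕ := ∏ p ∈ n.primeFactors, p

/-- `#(n)`: the product of the first `n` primes. -/
noncomputable def P (n : ℕ) : ℕ := ∏ i ∈ range n, Nat.nth Nat.Prime i

/-- The number of primes `p` in the `n`-th primorial interval such that `m - p` is a prime which lies in the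
`n`-th or in the `n + 1`-st primorial interval. -/
noncomputable def R (n m : ℕ) : ℕ :=
  ((Icc (P (n - 1) + 1) (P n + 1)).filter
    (fun p => p.Prime ∧ (m - p).Prime ∧ P (n - 1) + 1 ≤ m - p ∧ m - p ≤ P (n + 1) + 1)).card

/-- The number of primes `p` with `y₁ < p ≤ y₂` such that `m - p` is a prime. -/
def count (m y₁ y₂ : ℕ) : ℕ := ((Ioc y₁ y₂).filter (fun p => p.Prime ∧ (m - p).Prime)).card

/-- The assertion of the problem for `m` and `n`: `m = p + q` where `p` is a prime in the `n`-th primorial interval and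
`q` is a prime in the `n`-th or in the `n + 1`-st one. -/
def Assertion (n m : ℕ) : Prop :=
  ∃ p q : ℕ, p.Prime ∧ q.Prime ∧ m = p + q ∧ P (n - 1) + 1 ≤ p ∧ p ≤ P n + 1 ∧ P (n - 1) + 1 ≤ q ∧ q ≤ P (n + 1) + 1

/-- If `m` belongs to the `n + 1`-st primorial interval (`n ≥ 1`), then (1) the assertion of the problem holds; (2) up to
a relative error of at most `ε`, the number of these representations is `sing m * #(n) / log ^ 2 m`; (3) in every window
`(y₁, y₂]` of `(0, #(n)]` of a length of at least `#(n) / log ^ W m` the number of the primes `p` with `m - p` prime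
is `sing m * (y₂ - y₁) / log ^ 2 m`, up to a relative error of at most `ε`. -/
def Holds (ε : ℝ) (W m : ℕ) : Prop :=
  ∀ n : ℕ, 1 ≤ n → P n + 1 ≤ m → m ≤ P (n + 1) + 1 → Assertion n m ∧
    |(R n m : ℝ) - sing m * P n / Real.log m ^ 2| ≤ ε * (sing m * P n / Real.log m ^ 2) ∧
    ∀ y₁ y₂ : ℕ, y₁ < y₂ → y₂ ≤ P n → (P n : ℝ) / Real.log m ^ W ≤ (y₂ : ℝ) - y₁ →
      |(count m y₁ y₂ : ℝ) - sing m * ((y₂ : ℝ) - y₁) / Real.log m ^ 2| ≤
        ε * (sing m * ((y₂ : ℝ) - y₁) / Real.log m ^ 2)

/-- If `m` belongs to the `n + 1`-st primorial interval (`n ≥ 1`), then the assertion of the problem holds, and the number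
of these representations is at least `1 / 21` of the expected number `sing m * #(n) / log ^ 2 m`. -/
def Lower (m : ℕ) : Prop :=
  ∀ n : ℕ, 1 ≤ n → P n + 1 ≤ m → m ≤ P (n + 1) + 1 → Assertion n m ∧
    1 / 21 * (sing m * P n / Real.log m ^ 2) ≤ R n m

/-- The even integers `0 < m ≤ x` with `m ≡ a (mod q)` for which `F m` is false. -/
def exceptional (F : ℕ → Prop) (x : ℝ) (q : ℕ) (a : ℤ) : Set ℕ :=
  {m : ℕ | 0 < m ∧ (m : ℝ) ≤ x ∧ 2 ∣ m ∧ (m : ℤ) ≡ a [ZMOD q] ∧ ¬ F m}

/-- The class `a` modulo `q` is excluded by `D`: a member of `D` divides `a` and `q`. -/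
def Excluded (D : Finset ℕ) (q : ℕ) (a : ℤ) : Prop := ∃ d ∈ D, d ∣ Int.gcd a q

lemma next_le : ∃ m₀ : ℕ, ∀ m : ℕ, m₀ ≤ m → 6 ≤ Real.log m ∧ ∀ n : ℕ, P n + 1 ≤ m → m ≤ P (n + 1) + 1 →
    (m : ℝ) ≤ P n * Real.log m ^ 2 := by
  obtain ⟨n0, h0⟩ := Pool.Agent.W93.PG.next_prime
  obtain ⟨m1, h1⟩ := Filter.eventually_atTop.1
    (Pool.Agent.Y614.GJ.Core.ev_log 1 (s := 1) one_pos 6)
  refine ⟨P (n0 + 1) + m1 + 3, fun m hm => ?_⟩
  obtain ⟨hL6, -⟩ := h1 m (by omega)
  refine ⟨hL6, fun n h2 h3 => ?_⟩
  have hmono : ∀ i j : ℕ, i ≤ j → P i ≤ P j := fun i j hij => Pool.Agent.W93.PG.PR_mono hij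
  have hn : n0 ≤ n := by
    by_contra hcon
    have := hmono (n + 1) (n0 + 1) (by omega)
    omega
  have h4 := h0 n hn
  have hP1 : 1 ≤ P n := Pool.Agent.W93.PG.PR_pos n
  have hP : (1 : ℝ) ≤ P n := by exact_mod_cast hP1
  have hPR : (Pool.Agent.W93.PG.PR n : ℝ) = P n := rfl
  rw [hPR] at h4
  have h5 : Real.log (P n) ≤ Real.log m := Real.log_le_log (by linarith) (by exact_mod_cast (by omega : P n ≤ m))
  have h6 : (P (n + 1) : ℝ) = P n * Nat.nth Nat.Prime n := by
    have h7 := Pool.Agent.W93.PG.PR_succ n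
    exact_mod_cast h7
  have h8 : (m : ℝ) ≤ P (n + 1) + 1 := by exact_mod_cast h3
  calc (m : ℝ) ≤ P n * Nat.nth Nat.Prime n + 1 := by rw [← h6]; exact h8
    _ ≤ P n * (4 * Real.log m + 1) + P n := by
        apply add_le_add _ hP
        apply mul_le_mul_of_nonneg_left _ (by linarith)
        linarith
    _ = P n * (4 * Real.log m + 2) := by ring
    _ ≤ P n * Real.log m ^ 2 := by
        apply mul_le_mul_of_nonneg_left _ (by linarith)
        nlinarith

lemma assertion_of {n m : ℕ} (h : 0 < R n m) : Assertion n m := by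
  unfold R at h
  rw [card_pos] at h
  obtain ⟨p, hp⟩ := h
  rw [mem_filter, mem_Icc] at hp
  obtain ⟨⟨p1, p2⟩, p3, p4, p5, p6⟩ := hp
  exact ⟨p, m - p, p3, p4, by have := p4.pos; omega, p1, p2, p5, p6⟩

theorem holds_of (ε : ℝ) (hε : 0 < ε) (W : ℕ) : ∃ m₀ : ℕ, ∀ m : ℕ, m₀ ≤ m → 2 ∣ m →
    Pool.Agent.W93.PG.WinP (min ε (1 / 2) / 4) (W + 2) m → Holds ε W m := by
  obtain ⟨m₀, h0⟩ := Pool.Agent.W93.PG.reps_of_win (min ε (1 / 2)) (lt_min hε (by norm_num))
    ((min_le_right _ _).trans (by norm_num))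
  obtain ⟨m₁, h1⟩ := next_le
  refine ⟨m₀ + m₁ + 3, ?_⟩
  intro m hm _ hwin n hn h2 h3
  obtain ⟨hL6, hnext⟩ := h1 m (by omega)
  have hL1 : 1 ≤ Real.log m := by linarith
  have hlog : 0 < Real.log m := by linarith
  have hm0 : (3 : ℝ) ≤ m := by exact_mod_cast (by omega : 3 ≤ m)
  have hwin2 : Pool.Agent.W93.PG.WinP (min ε (1 / 2) / 4) 2 m := by
    intro y₁ y₂ k1 k2 k3
    refine hwin y₁ y₂ k1 k2 (le_trans ?_ k3)
    exact div_le_div_of_nonneg_left (by linarith) (by positivity) (pow_le_pow_right₀ hL1 (by omega))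
  have h4 := h0 m (by omega) hwin2 n hn h2 h3
  have hs := Pool.Agent.R460.GS.one_le_sing m
  have hP : (0 : ℝ) < P n := by exact_mod_cast Pool.Agent.W93.PG.PR_pos n
  have hmain : 0 < sing m * P n / Real.log m ^ 2 := by positivity
  have hR : R n m = Pool.Agent.W93.PG.reps n m := rfl
  have hPR : Pool.Agent.W93.PG.PR n = P n := rfl
  rw [← hR, hPR] at h4
  have h5 : |(R n m : ℝ) - sing m * P n / Real.log m ^ 2| ≤ ε * (sing m * P n / Real.log m ^ 2) :=
    h4.trans (mul_le_mul_of_nonneg_right (min_le_left _ _) hmain.le)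
  have h6 : |(R n m : ℝ) - sing m * P n / Real.log m ^ 2| ≤ 1 / 2 * (sing m * P n / Real.log m ^ 2) :=
    h4.trans (mul_le_mul_of_nonneg_right (min_le_right _ _) hmain.le)
  refine ⟨?_, h5, ?_⟩
  · have h7 : (0 : ℝ) < R n m := by
      rw [abs_le] at h6
      linarith [h6.1]
    exact assertion_of (by exact_mod_cast h7)
  · intro y₁ y₂ k1 k2 k3
    have h7 := hnext n h2 h3
    have h8 : (m : ℝ) / Real.log m ^ (W + 2) ≤ P n / Real.log m ^ W := by
      rw [div_le_div_iff₀ (by positivity) (by positivity)]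
      calc (m : ℝ) * Real.log m ^ W ≤ (P n * Real.log m ^ 2) * Real.log m ^ W := by gcongr
        _ = P n * Real.log m ^ (W + 2) := by ring
    refine (hwin y₁ y₂ k1 (by omega) (h8.trans k3)).trans ?_
    apply mul_le_mul_of_nonneg_right
    · have : min ε (1 / 2) ≤ ε := min_le_left _ _
      have : 0 < min ε (1 / 2) := lt_min hε (by norm_num)
      linarith
    · have : (0 : ℝ) ≤ (y₂ : ℝ) - y₁ := by
        have : (y₁ : ℝ) ≤ y₂ := by exact_mod_cast k1.le
        linarith
      positivity

theorem lower_of : ∃ m₀ : ℕ, ∀ m : ℕ, m₀ ≤ m → 2 ∣ m → Pool.Agent.T6.H3.FF.WinM 2 m → Lower m := by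
  obtain ⟨m₀, h0⟩ := Pool.Agent.R460.GS.reps_low
  refine ⟨m₀ + 3, ?_⟩
  intro m hm _ hwin n hn h2 h3
  have hs := Pool.Agent.R460.GS.one_le_sing m
  have hwin' : Pool.Agent.R460.GS.WinL 2 m := by
    intro y₁ y₂ k1 k2 k3
    refine le_trans ?_ (hwin y₁ y₂ k1 k2 k3)
    have h4 : (0 : ℝ) ≤ sing m * ((y₂ : ℝ) - y₁) / Real.log m ^ 2 := by
      have : (0 : ℝ) ≤ (y₂ : ℝ) - y₁ := by
        have : (y₁ : ℝ) ≤ y₂ := by exact_mod_cast k1.le
        linarith
      positivity
    linarith
  have h4 := h0 m (by omega) hwin' n hn h2 h3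
  have hm0 : (3 : ℝ) ≤ m := by exact_mod_cast (by omega : 3 ≤ m)
  have hlog : 0 < Real.log m := Real.log_pos (by linarith)
  have hP : (0 : ℝ) < P n := by exact_mod_cast Pool.Agent.W93.PG.PR_pos n
  have hmain : 0 < sing m * P n / Real.log m ^ 2 := by positivity
  have hR : R n m = Pool.Agent.W93.PG.reps n m := rfl
  have hPR : Pool.Agent.W93.PG.PR n = P n := rfl
  rw [← hR, hPR] at h4
  refine ⟨?_, h4⟩
  have h7 : (0 : ℝ) < R n m := by linarith
  exact assertion_of (by exact_mod_cast h7)

open Classical in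
/-- For all `ρ, ε > 0`, `A` and `W` there is `c` such that for all `B` and all sufficiently large real `x` there is a
finite set `D` of at most `(log x) ^ c` integers, whose radicals are larger than `(log x) ^ B`, with the following
properties, for EVERY integer `q ≥ 1`. (a) A class `a` modulo `q` with `rad (gcd (a, q)) ≤ (log x)^B` is not excluded
by `D`; (b) at most `q / (log x)^B` of the classes modulo `q` are excluded by `D`; (c) for every integer `a` which is
not excluded by `D` (modulo `q`): if `q ≤ x ^ (2 / 3 - ρ)`, then all but at most `x / (q (log x)^A)` of the even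
integers `0 < m ≤ x`, `m ≡ a (mod q)`, satisfy `Holds ε W m` (the assertion of the problem, with the asymptotic
formula); if `q ≤ x ^ (4 / 5 - ρ)`, then all but at most `x / (q (log x)^A)` of them satisfy `Lower m` (the assertion of
the problem, with a lower bound of the right order for the number of the representations). -/
theorem result (ρ ε : ℝ) (hρ : 0 < ρ) (hε : 0 < ε) (A W : ℕ) :
    ∃ c : ℕ, ∀ B : ℕ, ∃ x₀ : ℝ, ∀ x : ℝ, x₀ ≤ x →
    ∃ D : Finset ℕ, (D.card : ℝ) ≤ Real.log x ^ c ∧ (∀ d ∈ D, Real.log x ^ B < (rad d : ℝ)) ∧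
    ∀ q : ℕ, 1 ≤ q →
      (∀ a : ℤ, (rad (Int.gcd a q) : ℝ) ≤ Real.log x ^ B → ¬ Excluded D q a) ∧
      (((range q).filter (fun a : ℕ => Excluded D q a)).card : ℝ) ≤ q / Real.log x ^ B ∧
      ∀ a : ℤ, ¬ Excluded D q a →
        ((q : ℝ) ≤ x ^ (2 / 3 - ρ) → (exceptional (Holds ε W) x q a).Finite ∧
          ((exceptional (Holds ε W) x q a).ncard : ℝ) ≤ x / (q * Real.log x ^ A)) ∧
        ((q : ℝ) ≤ x ^ (4 / 5 - ρ) → (exceptional Lower x q a).Finite ∧
          ((exceptional Lower x q a).ncard : ℝ) ≤ x / (q * Real.log x ^ A)) :=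
  Pool.Agent.H567.PP.base_final
    (Pool.Agent.H567.PP.base_and
      (Pool.Agent.H567.PP.winP_base (Holds ε W) (e := min ε (1 / 2) / 4) (by
        have : 0 < min ε (1 / 2) := lt_min hε (by norm_num)
        positivity) (W + 2) (holds_of ε hε W) hρ A)
      (Pool.Agent.H567.PP.fru_base Lower 2 lower_of hρ A))

end Pool.Agent.Results.MP_484fb8_nt.EveryClassEveryModulus
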