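import Pool.Agent.H559.SI.GWP

set_option autoImplicit false

/-!
# Goldbach representations within primorial intervals and within all windows, in the random sieve model

For every prime `q` a residue class `a q` modulo `q` is drawn uniformly and independently. The random primes are the
integers `v ≥ 3` which are, for all primes `q ≤ z v`, not in the class `0` modulo `q` if `q ≤ (log v) ^ c`, and not in the
class `a q` modulo `q` if `q > (log v) ^ c`. This is the model of Banks, Ford and Tao (*Large prime gaps and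
probabilistic models*) in which the small primes sieve out the class `0` as they do for the true primes. The sieving
limit `z` is any nondecreasing function for which `∏_{q ≤ z v} (1 - 1 / q)` is asymptotic to `1 / log v`; the choice `zBFT`
of Banks, Ford and Tao is one of them. The exponent `c` is any number larger than `1`.

Let `#n = p_1 ⋯ p_n` be the primorials (of the true primes), `I n = [#(n - 1) + 1, #n + 1]` the primorial intervals of the
problem, and `𝔖(m) = 2 C₂ ∏ (p - 1) / (p - 2)` (over the odd primes `p ∣ m`) the singular series. The theorem: almost surely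
* (the question of the problem, for large `n`, with the asymptotic number of the representations) uniformly for all even
  numbers `m` in `I (n + 1)` the number of the representations `m = p + q` by random primes `p` in `I n` and `q` in
  `I n ∪ I (n + 1)` is asymptotic to `𝔖(m) · #n / log² #n`, as `n → ∞`. (The upper end of `I (n + 1)` is about `#n · log #n`,
  so that the first summand `p ≤ #n` is smaller than `m` by the factor `log m` there.)
* much more generally, for all `δ > 0`, uniformly for all even `N` and all windows `(u, u + y]` with `N ^ δ ≤ y ≤ u` and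
  `u + 2 y ≤ N`, the number of the random primes `p` in `(u, u + y]` with `N - p` a random prime is asymptotic to
  `𝔖(N) · y / (log u · log (N - u))`, as `N → ∞`: there are Goldbach representations with a summand in every short window.
-/

open MeasureTheory ProbabilityTheory Filter Topology

namespace Pool.Agent.Results.MP_484fb8_nt.GoldbachInWindows

/-- `V m = ∏ (1 - 1 / q)` over the primes `q ≤ m` -/
noncomputable def V (m : ℕ) : ℝ := ∏ q ∈ (Finset.range (m + 1)).filter Nat.Prime, (1 - 1 / (q : ℝ))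

/-- the classes `a q` are independent, and `a q` is uniform on `0, …, q - 1` for every prime `q` -/
structure Model {Ω : Type} [MeasurableSpace Ω] (P : Measure Ω) (a : ℕ → Ω → ℕ) : Prop where
  measurable : ∀ q, Measurable (a q)
  independent : iIndepFun a P
  uniform : ∀ q, q.Prime → ∀ r < q, P.real {ω | a q ω = r} = 1 / q

/-- the sieving limit of Banks, Ford and Tao: the largest `m` with `∏_{q ≤ m} (1 - 1 / q)⁻¹ ≤ log n` -/
noncomputable def zBFT (n : ℕ) : ℕ := sSup {m : ℕ | (V m)⁻¹ ≤ Real.log n}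

/-- the admissible sieving limits: the density of the random primes near `v` is asymptotic to `1 / log v` -/
def Limit (z : ℕ → ℕ) : Prop := Monotone z ∧ Tendsto (fun v => V (z v) * Real.log v) atTop (𝓝 1)

open Classical in
/-- the set of the random primes of a sample -/
def R {Ω : Type} (z : ℕ → ℕ) (c : ℝ) (a : ℕ → Ω → ℕ) (ω : Ω) : Set ℕ :=
  {v | 3 ≤ v ∧ ∀ q ≤ z v, q.Prime → v % q ≠ if (q : ℝ) ≤ Real.log v ^ c then 0 else a q ω}

/-- the partial products of the twin prime constant -/
noncomputable def partialC2 (n : ℕ) : ℝ :=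
  ∏ p ∈ (Finset.range (n + 1)).filter (fun p => p.Prime ∧ p ≠ 2), (1 - 1 / ((p : ℝ) - 1) ^ 2)

/-- the singular series of an even number -/
noncomputable def series (C₂ : ℝ) (n : ℕ) : ℝ :=
  2 * C₂ * ∏ p ∈ n.primeFactors.filter (fun p => p ≠ 2), ((p : ℝ) - 1) / ((p : ℝ) - 2)

/-- the primorial `#n`, the product of the first `n` primes -/
noncomputable def primor (n : ℕ) : ℕ := ∏ i ∈ Finset.range n, Nat.nth Nat.Prime i

/-- the primorial intervals -/
def I (n : ℕ) : Set ℕ := {x | primor (n - 1) + 1 ≤ x ∧ x ≤ primor n + 1}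

/-- the number of the representations `m = p + q`, `p ∈ A ∩ I n`, `q ∈ A ∩ (I n ∪ I (n + 1))` -/
noncomputable def G (A : Set ℕ) (n m : ℕ) : ℕ := {p : ℕ | p ∈ A ∩ I n ∧ ∃ q ∈ A ∩ (I n ∪ I (n + 1)), p + q = m}.ncard

/-- the number of the representations `N = p + q` with `p, q ∈ A`, `u < p ≤ u + y` -/
noncomputable def window (A : Set ℕ) (N u y : ℕ) : ℕ := {p : ℕ | u < p ∧ p ≤ u + y ∧ p ∈ A ∧ ∃ q ∈ A, p + q = N}.ncard

theorem result :
    (∃ (Ω : Type) (_ : MeasurableSpace Ω) (P : Measure Ω) (a : ℕ → Ω → ℕ), Model P a) ∧ Limit zBFT ∧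
    ∃ C₂ : ℝ, 0 < C₂ ∧ Tendsto partialC2 atTop (𝓝 C₂) ∧
      ∀ z : ℕ → ℕ, Limit z → ∀ c : ℝ, 1 < c →
        ∀ (Ω : Type) [MeasurableSpace Ω] (P : Measure Ω) (a : ℕ → Ω → ℕ), Model P a →
          ∀ᵐ ω ∂P,
            (∀ ε : ℝ, 0 < ε → ∀ᶠ n : ℕ in atTop, ∀ m ∈ I (n + 1), Even m →
              |(G (R z c a ω) n m : ℝ) * Real.log (primor n) ^ 2 / (primor n * series C₂ m) - 1| ≤ ε) ∧
            ∀ δ ε : ℝ, 0 < δ → 0 < ε → ∀ᶠ N : ℕ in atTop, Even N →
              ∀ u y : ℕ, (N : ℝ) ^ δ ≤ y → y ≤ u → u + 2 * y ≤ N →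
                |(window (R z c a ω) N u y : ℝ) * (Real.log u * Real.log ((N - u : ℕ) : ℝ)) / (y * series C₂ N) - 1| ≤ ε := by
  classical
  obtain ⟨C₂, hc0, hc⟩ := Pool.Agent.H559.BS.C2_lim
  refine ⟨?_, ⟨Pool.Agent.T2H32.BF.z0_mono, Pool.Agent.T2H32.BF.z0_lim⟩, C₂, hc0, hc, ?_⟩
  · obtain ⟨Ω, i, P, a, h⟩ := Pool.Agent.T2H32.BF.exists_model
    exact ⟨Ω, i, P, a, h.measurable, h.independent, h.uniform⟩
  · intro z hz c hc1 Ω _ P a hmod
    have h : Pool.Agent.T2H32.BF.Model P a := ⟨hmod.measurable, hmod.independent, hmod.uniform⟩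
    have hcut := Pool.Agent.H559.HY.cut_WW c hc1
    filter_upwards [Pool.Agent.H559.HY.ae_OK h z (Pool.Agent.H559.HY.WW c) hz hcut] with ω hω
    have e : R z c a ω = Pool.Agent.H559.HY.RS z (Pool.Agent.H559.HY.WW c) (fun p => a p ω) := by
      ext v
      simp only [R, Pool.Agent.H559.HY.RS, Set.mem_ofPred_eq]
      refine and_congr_right fun hv => ?_
      refine forall_congr' fun q => forall_congr' fun _ => forall_congr' fun _ => ?_
      have h0 : 0 ≤ Real.log v ^ c := Real.rpow_nonneg (Real.log_nonneg (by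
        have : 1 ≤ v := by omega
        exact_mod_cast this)) c
      have h1 : (q : ℝ) ≤ Real.log v ^ c ↔ q ≤ Pool.Agent.H559.HY.WW c v := (Nat.le_floor_iff h0).symm
      by_cases h2 : (q : ℝ) ≤ Real.log v ^ c
      · rw [if_pos h2, if_pos (h1.1 h2)]
      · rw [if_neg h2, if_neg (fun h3 => h2 (h1.2 h3))]
    rw [e]
    refine ⟨fun ε hε => ?_, fun δ ε hδ hε => ?_⟩
    · have h1 := Pool.Agent.H559.SI.gprim z _ hz hcut _ hω C₂ hc0 hc ε hε
      have h2 := (tendsto_sub_atTop_nat 1).eventually h1
      filter_upwards [h2, eventually_ge_atTop 1] with n h3 h4 m hm hev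
      have e1 : n - 1 + 1 = n := by omega
      have e2 : n - 1 + 2 = n + 1 := by omega
      have hm' : Pool.Agent.H559.SI.pr n + 1 ≤ m ∧ m ≤ Pool.Agent.H559.SI.pr (n + 1) + 1 := by
        have h5 := hm
        simp only [I, Set.mem_ofPred_eq, Nat.add_sub_cancel] at h5
        exact h5
      have h6 := h3 m hev (by rw [e1]; exact hm'.1) (by rw [e2]; exact hm'.2)
      rw [e1] at h6
      have e3 : G (Pool.Agent.H559.HY.RS z (Pool.Agent.H559.HY.WW c) (fun p => a p ω)) n m =
          Pool.Agent.H559.SI.gp (Pool.Agent.H559.HY.RS z (Pool.Agent.H559.HY.WW c) (fun p => a p ω)) (n - 1) m := by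
        unfold G Pool.Agent.H559.SI.gp
        congr 1
        ext p
        simp only [I, Set.mem_inter_iff, Set.mem_union, Set.mem_ofPred_eq, Nat.add_sub_cancel, e1, e2]
        change (_ ∧ (Pool.Agent.H559.SI.pr (n - 1) + 1 ≤ p ∧ p ≤ Pool.Agent.H559.SI.pr n + 1)) ∧
          (∃ q, (_ ∧ ((Pool.Agent.H559.SI.pr (n - 1) + 1 ≤ q ∧ q ≤ Pool.Agent.H559.SI.pr n + 1) ∨
            (Pool.Agent.H559.SI.pr n + 1 ≤ q ∧ q ≤ Pool.Agent.H559.SI.pr (n + 1) + 1))) ∧ p + q = m) ↔ _
        have h7 : Pool.Agent.H559.SI.pr (n - 1) ≤ Pool.Agent.H559.SI.pr n := by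
          conv_rhs => rw [← e1]
          rw [Pool.Agent.H559.SI.pr_succ]
          exact Nat.le_mul_of_pos_right _ (Nat.prime_nth_prime _).pos
        have h8 : Pool.Agent.H559.SI.pr n ≤ Pool.Agent.H559.SI.pr (n + 1) := by
          rw [Pool.Agent.H559.SI.pr_succ]
          exact Nat.le_mul_of_pos_right _ (Nat.prime_nth_prime _).pos
        constructor
        · rintro ⟨⟨a1, a2, a3⟩, q, ⟨a4, a5⟩, a6⟩
          exact ⟨a2, a3, a1, q, a4, a6, by omega, by omega⟩
        · rintro ⟨a1, a2, a3, q, a4, a5, a6, a7⟩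
          exact ⟨⟨a3, a1, a2⟩, q, ⟨a4, by omega⟩, a5⟩
      rw [e3]
      exact h6
    · exact Pool.Agent.H559.SI.gshort z _ hz hcut _ hω C₂ hc0 hc δ ε hδ hε

end Pool.Agent.Results.MP_484fb8_nt.GoldbachInWindows
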