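import Pool.Agent.H540.TE.Lin

/-!
# Goldbach representations `m = p + q` with almost primes in the primorial intervals, `p` with two prime factors, on differences

Let `P = #(n)` be the product of the first `n` primes, `n` large, and let `m` be an even number of the
`(n + 1)`-primorial interval `[#(n) + 1, #(n + 1) + 1]`. The question asks for
`m = p + q` with a prime `p` of the `n`-primorial interval and a prime `q` of the `n`-primorial or of the
`(n + 1)`-primorial interval. Here `p` has at most two prime factors, both at least `P ^ (6 / 25)`, `q` is an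
almost prime (at most `R` prime factors, all at least `P ^ c`, a power of the size of the numbers), both in these
intervals, and `p` can moreover be found on a translate of
the difference set of ANY set `A` of integers in `[1, P / 4]` with at least `P ^ (1 - c)` elements: if
`x` is in `[P / 4, P / 2]` and `x` and `m - x` have no prime factor below `P ^ κ`, then `p = x + (a - b)`,
`q = m - p` have the required properties for at least `P ^ (2 - δ)` pairs `b < a` of
elements of `A`. The constants `c` and `R` depend only on `κ` and `δ`; the result is uniform in `m`.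

Base points `x` of this kind exist in every interval of length `P ^ ε` (`κ` depends on `ε`). The
condition on `x` is necessary: if a small prime `l` divides `x` or `m - x`, all elements of `A` may be
multiples of `l`.

This is a theorem of the type of Furstenberg and Sárközy with a power saving; for the differences `p - 1`
such a bound is a theorem of B. Green.

Method: the small primes (up to a small power of `P`) are sieved by a combination of additive characters with
majorising properties: with `t_l (m) = (K + 1) 1_{l | m} - x_l (m)`, where `x_l` is the indicator function of the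
excluded classes and their negatives, `L = ∑_{d ≤ D} (1 - log d / log D) ∏_{l | d} t_l` and its analogues `L_l`
give `f = L ^ 2 - ∑_l x_l L_l ^ 2 ≤ 0` outside of the sifted set, and the Fourier coefficients of `f`
which are not small are nonnegative, so that their contribution is bounded from below by the main term, however sparse
`A` is. The larger prime divisors of `p` are treated by the linear sieve with the weights of Richert, with the
level `P ^ (24 / 25)`: the mean free parts of their indicator functions, multiplied by `L ^ 2` or `L_l ^ 2`, are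
dominated by functions with nonnegative coefficients, whose pair sums are bounded by the large sieve; the loss by the
sparsity of `A` is compensated by the gain from the size of these primes.
-/

set_option autoImplicit false

namespace Pool.Agent.Results.MP_484fb8_nt.GoldbachWithTwoFactors

open Finset Filter Pool.Agent.H540.PS

/-- The product of the first `n` primes. -/
noncomputable def primorialN (n : ℕ) : ℕ := ∏ i ∈ range n, Nat.nth Nat.Prime i

/-- The `n`-primorial interval `[#(n-1) + 1, #(n) + 1]`. -/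
def InInterval (n : ℕ) (x : ℤ) : Prop := (primorialN (n - 1) : ℤ) + 1 ≤ x ∧ x ≤ (primorialN n : ℤ) + 1

/-- All prime factors of `n` are at least `y`. -/
def Rough (y : ℝ) (n : ℤ) : Prop := ∀ p : ℕ, p.Prime → (p : ℤ) ∣ n → y ≤ (p : ℝ)

/-- `n` is positive and has at most `R` prime factors, counted with multiplicity, all at least `y`. -/
def AlmostPrime (R : ℕ) (y : ℝ) (n : ℤ) : Prop :=
  0 < n ∧ n.natAbs.primeFactorsList.length ≤ R ∧ Rough y n

/-- `m = p + q`, where `p` is in the `n`-primorial interval and has at most two prime factors, all at least `w`, and `q`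
is in the `n`-primorial or in the `(n + 1)`-primorial interval and has at most `R` prime factors, all at least `y`. -/
def Goldbach (R : ℕ) (y w : ℝ) (n : ℕ) (m p : ℤ) : Prop :=
  AlmostPrime 2 w p ∧ AlmostPrime R y (m - p) ∧ InInterval n p ∧ (InInterval n (m - p) ∨ InInterval (n + 1) (m - p))

open Classical in
/-- The number of pairs `b < a` of elements of `A` such that `p = x + (a - b)` gives such a representation
of `m`. -/
noncomputable def pairCount (R : ℕ) (y w : ℝ) (n : ℕ) (m x : ℤ) (A : Finset ℤ) : ℕ :=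
  ((A ×ˢ A).filter (fun z : ℤ × ℤ => z.2 < z.1 ∧ Goldbach R y w n m (x + (z.1 - z.2)))).card

theorem ap_of (R : ℕ) (y : ℝ) (n : ℤ) (hn : 0 < n) (h : AP R y n.natAbs) : AlmostPrime R y n :=
  ⟨hn, h.2.1, fun p hp hd => h.2.2 p hp (Int.natCast_dvd.1 hd)⟩

theorem prim_succ (n : ℕ) : primorialN (n + 1) = primorialN n * Nat.nth Nat.Prime n := by
  unfold primorialN
  rw [prod_range_succ]

theorem nth_prime (n : ℕ) : (Nat.nth Nat.Prime n).Prime := Nat.prime_nth_prime n

theorem prim_ge (n : ℕ) : n < primorialN n := by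
  induction n with
  | zero => simp [primorialN]
  | succ n ih =>
    rw [prim_succ]
    have h := (nth_prime n).two_le
    nlinarith

theorem nth_le (n : ℕ) (hn : 1 ≤ n) : Nat.nth Nat.Prime n ≤ 2 * primorialN n := by
  obtain ⟨k, rfl⟩ : ∃ k, n = k + 1 := ⟨n - 1, by omega⟩
  obtain ⟨q, hq, h1, h2⟩ := Nat.exists_prime_lt_and_le_two_mul (Nat.nth Nat.Prime k) (nth_prime k).ne_zero
  have h3 : Nat.nth Nat.Prime (k + 1) ≤ q := by
    by_contra hcon
    push Not at hcon
    have h4 := Nat.nth_count hq
    have hinf : (setOf Nat.Prime).Infinite := Nat.infinite_setOf_prime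
    have h5 : k < Nat.count Nat.Prime q := by
      rw [← h4] at h1
      exact (Nat.nth_strictMono hinf).lt_iff_lt.1 h1
    have h6 : Nat.count Nat.Prime q < k + 1 := by
      rw [← h4] at hcon
      exact (Nat.nth_strictMono hinf).lt_iff_lt.1 hcon
    omega
  have h4 : Nat.nth Nat.Prime k ≤ primorialN (k + 1) := by
    rw [prim_succ]
    apply Nat.le_mul_of_pos_left
    have := prim_ge k
    omega
  omega

/-- base points -/
theorem points (ε : ℝ) (hε : 0 < ε) : ∃ (κ : ℝ) (P₀ : ℕ), 0 < κ ∧ ∀ P : ℕ, P₀ ≤ P → ∀ m M : ℤ, Even m →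
    ∃ x : ℤ, M < x ∧ (x : ℝ) ≤ M + (P : ℝ) ^ ε ∧ Rough ((P : ℝ) ^ κ) x ∧ Rough ((P : ℝ) ^ κ) (m - x) := by
  obtain ⟨κ, n0, hκ, H⟩ := base_eps 2 ε hε
  refine ⟨κ, n0, hκ, fun P hP m M hm => ?_⟩
  have hpd : ∀ p : ℕ, p.Prime → ∀ q : ℕ, (p : ℤ) ∣ (q : ℤ) → q ≠ 0 → p ≤ q := by
    intro p _ q hd hq
    exact Nat.le_of_dvd (Nat.pos_of_ne_zero hq) (Int.natCast_dvd_natCast.1 hd)
  obtain ⟨t, h1, h2, h3⟩ := H P hP (fun p t => (p : ℤ) ∣ t ∨ (p : ℤ) ∣ m - t) M (by
    intro p hp
    refine ⟨?_, ?_, ?_⟩
    · intro t t' h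
      have h' : (p : ℤ) ∣ (m - t) - (m - t') := by
        rw [show m - t - (m - t') = -(t - t') by ring]
        exact (dvd_neg).2 h
      exact or_congr (Int.dvd_iff_dvd_of_dvd_sub h) (Int.dvd_iff_dvd_of_dvd_sub h')
    · have hp2 := hp.two_le
      by_cases h1 : (p : ℤ) ∣ m - 1
      · refine ⟨2, ?_⟩
        have hp3 : p ≠ 2 := by
          rintro rfl
          obtain ⟨r, hr⟩ := hm
          push_cast at h1
          omega
        rintro (h2 | h2)
        · have := hpd p hp 2 (by exact_mod_cast h2) (by norm_num)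
          omega
        · have h3 : (p : ℤ) ∣ ((1 : ℕ) : ℤ) := by
            have := dvd_sub h1 h2
            rw [show m - 1 - (m - 2) = 1 by ring] at this
            exact_mod_cast this
          have := hpd p hp 1 h3 (by norm_num)
          omega
      · refine ⟨1, ?_⟩
        rintro (h2 | h2)
        · have := hpd p hp 1 (by exact_mod_cast h2) (by norm_num)
          omega
        · exact h1 h2
    · have hone : ¬ ((p : ℤ) ∣ 1) := by
        intro h
        have := hpd p hp 1 (by exact_mod_cast h) (by norm_num)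
        have := hp.two_le
        omega
      have e1 : (RR (fun t => (p : ℤ) ∣ t) p).card ≤ 1 := by
        have := RR_lin 1 0 p hp (fun h => hone h.1)
        simpa using this
      have e2 : (RR (fun t => (p : ℤ) ∣ m - t) p).card ≤ 1 := by
        have := RR_lin (-1) m p hp (fun h => hone ((dvd_neg).1 (by simpa using h.1)))
        have e : (fun t : ℤ => (p : ℤ) ∣ m - t) = fun t => (p : ℤ) ∣ -1 * t + m := by
          funext t
          rw [show -1 * t + m = m - t by ring]
        rw [e]
        exact this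
      exact RR_or _ _ p 1 1 e1 e2)
  exact ⟨t, h1, h2, fun p hp hd => h3 p hp (Or.inl hd), fun p hp hd => h3 p hp (Or.inr hd)⟩

/-- **Goldbach representations with almost primes in the primorial intervals, along differences.** -/
theorem result :
    (∀ ε : ℝ, 0 < ε → ∃ (κ : ℝ) (n₀ : ℕ), 0 < κ ∧ ∀ n : ℕ, n₀ ≤ n → ∀ m M : ℤ, Even m → ∃ x : ℤ,
      M < x ∧ (x : ℝ) ≤ M + (primorialN n : ℝ) ^ ε ∧
      Rough ((primorialN n : ℝ) ^ κ) x ∧ Rough ((primorialN n : ℝ) ^ κ) (m - x)) ∧
    ∀ (κ δ : ℝ), 0 < κ → 0 < δ → ∃ (c : ℝ) (R n₀ : ℕ), 0 < c ∧ ∀ n : ℕ, n₀ ≤ n →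
      ∀ (m x : ℤ) (A : Finset ℤ),
        InInterval (n + 1) m → (primorialN n : ℤ) ≤ 4 * x → 2 * x ≤ primorialN n →
        Rough ((primorialN n : ℝ) ^ κ) x → Rough ((primorialN n : ℝ) ^ κ) (m - x) →
        (∀ a ∈ A, 1 ≤ a ∧ 4 * a ≤ primorialN n) → (primorialN n : ℝ) ^ (1 - c) ≤ A.card →
        (primorialN n : ℝ) ^ (2 - δ) ≤
          pairCount R ((primorialN n : ℝ) ^ c) ((primorialN n : ℝ) ^ (6 / 25 : ℝ)) n m x A := by
  classical
  constructor
  · intro ε hε
    obtain ⟨κ, P₀, hκ, H⟩ := points ε hε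
    exact ⟨κ, P₀, hκ, fun n hn m M hm => H _ (hn.trans (prim_ge n).le) m M hm⟩
  intro κ δ hκ hδ
  obtain ⟨c, R, N0, hc0, hcδ, H⟩ := linT 2 2 (3 / 2) 3 κ δ (by norm_num) (by norm_num) hκ hδ (by norm_num)
  refine ⟨c, R, max N0 20, hc0, ?_⟩
  intro n hn m x A hm hx1 hx2 hrx hrm hA hAc
  have hn20 : 20 ≤ n := (le_max_right _ _).trans hn
  have hPn := prim_ge n
  obtain ⟨P, hP⟩ : ∃ P : ℕ, P = primorialN n := ⟨_, rfl⟩
  rw [← hP] at hPn hx1 hx2 hrx hrm hA hAc
  have hP20 : 20 ≤ P := by omega
  have hPN0 : N0 ≤ P := by have := (le_max_left _ _).trans hn; omega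
  -- bounds
  have hm1 : (P : ℤ) + 1 ≤ m := by
    have := hm.1
    rw [show n + 1 - 1 = n by omega, ← hP] at this
    exact this
  have hm2 : m ≤ 2 * (P : ℤ) * P + 1 := by
    have h1 := hm.2
    rw [prim_succ, ← hP] at h1
    have h2 := nth_le n (by omega)
    rw [← hP] at h2
    have h3 : ((P * Nat.nth Nat.Prime n : ℕ) : ℤ) ≤ ((P * (2 * P) : ℕ) : ℤ) := by
      exact_mod_cast Nat.mul_le_mul_left P h2
    push_cast at h1 h3
    linarith
  have hlow : (primorialN (n - 1) : ℤ) * 5 ≤ P := by
    have h1 : primorialN n = primorialN (n - 1) * Nat.nth Nat.Prime (n - 1) := by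
      rw [← prim_succ]
      congr 1
      omega
    have h2 := Nat.add_two_le_nth_prime (n - 1)
    have h3 : primorialN (n - 1) * 5 ≤ primorialN (n - 1) * Nat.nth Nat.Prime (n - 1) :=
      Nat.mul_le_mul_left _ (by omega)
    rw [hP, h1]
    exact_mod_cast h3
  have hPz : (20 : ℤ) ≤ P := by exact_mod_cast hP20
  have hPr : (20 : ℝ) ≤ P := by exact_mod_cast hP20
  obtain ⟨al, hal⟩ : ∃ al : Fin 2 → ℤ, al = ![1, -1] := ⟨_, rfl⟩
  obtain ⟨be, hbe⟩ : ∃ be : Fin 2 → ℤ, be = ![x, m - x] := ⟨_, rfl⟩
  have al0 : al 0 = 1 := by rw [hal]; rfl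
  have al1 : al 1 = -1 := by rw [hal]; rfl
  have be0 : be 0 = x := by rw [hbe]; rfl
  have be1 : be 1 = m - x := by rw [hbe]; rfl
  have key := H P hPN0 1 x al be A one_ne_zero (by
    have h0 : 0 ≤ x := by linarith
    rw [Int.cast_one, abs_one, one_mul, abs_of_nonneg (by exact_mod_cast h0)]
    have h1 : (x : ℝ) ≤ P := by
      have : x ≤ (P : ℤ) := by linarith
      exact_mod_cast this
    have h2 : (2 : ℝ) ≤ (P : ℝ) ^ (1 / 2 : ℝ) := by
      rw [← Real.sqrt_eq_rpow]
      exact Real.le_sqrt_of_sq_le (by linarith)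
    have h3 : (P : ℝ) ^ (3 / 2 : ℝ) = (P : ℝ) ^ (1 / 2 : ℝ) * P := by
      rw [show (3 / 2 : ℝ) = 1 / 2 + 1 by norm_num, Real.rpow_add (by linarith), Real.rpow_one]
    rw [h3]
    have h4 := mul_le_mul_of_nonneg_right h2 (show (0 : ℝ) ≤ P by linarith)
    linarith) (by
    intro p hp hd
    refine ⟨hrx p hp hd, ?_⟩
    intro h7
    have h8 := Int.natCast_dvd.1 h7
    exact hp.one_lt.ne' (Nat.dvd_one.1 h8)) (by
    have h3 : (1 : ℝ) ≤ (P : ℝ) ^ (3 : ℝ) := Real.one_le_rpow (by linarith) (by norm_num)
    have h4 : (P : ℝ) ^ (3 : ℝ) = (((P : ℤ) ^ 3 : ℤ) : ℝ) := by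
      push_cast
      rw [show (3 : ℝ) = ((3 : ℕ) : ℝ) by norm_num, Real.rpow_natCast]
    rw [Fin.forall_fin_two, al0, al1, be0, be1]
    refine ⟨⟨?_, ?_⟩, ⟨?_, ?_⟩⟩
    · rw [Int.cast_one, abs_one]
      exact h3
    · rw [abs_of_nonneg (by have : 0 ≤ x := by linarith
                            exact_mod_cast this), h4]
      have : x ≤ (P : ℤ) ^ 3 := by nlinarith [mul_nonneg (show (0 : ℤ) ≤ P by linarith) (show (0 : ℤ) ≤ P by linarith)]
      exact_mod_cast this
    · rw [Int.cast_neg, Int.cast_one, abs_neg, abs_one]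
      exact h3
    · rw [abs_of_nonneg (by have : 0 ≤ m - x := by linarith
                            exact_mod_cast this), h4]
      have : m - x ≤ (P : ℤ) ^ 3 := by
        have h5 : 20 * ((P : ℤ) * P) ≤ (P : ℤ) ^ 3 := by
          have : (P : ℤ) ^ 3 = P * (P * P) := by ring
          rw [this]
          exact mul_le_mul_of_nonneg_right hPz (by positivity)
        nlinarith
      exact_mod_cast this) (by
    rw [Fin.forall_fin_two, be0, be1]
    exact ⟨hrx, hrm⟩) (by
    intro a ha
    obtain ⟨h1, h2⟩ := hA a ha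
    exact ⟨h1, by linarith⟩) hAc
  rw [← hP]
  refine key.trans ?_
  unfold pairCount
  apply Nat.cast_le.2
  apply card_le_card
  rintro ⟨a, b⟩ hz
  rw [mem_filter, mem_product] at hz ⊢
  obtain ⟨⟨ha, hb⟩, hlt, hall⟩ := hz
  simp only at ha hb hlt hall ⊢
  refine ⟨⟨ha, hb⟩, hlt, ?_⟩
  rw [Fin.forall_fin_two, al0, al1, be0, be1] at hall
  obtain ⟨k0, _, k1⟩ := hall
  rw [show 1 * (a - b) + x = x + (a - b) by ring] at k0
  rw [show -1 * (a - b) + (m - x) = m - (x + (a - b)) by ring] at k1
  obtain ⟨g1, g2⟩ := hA a ha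
  obtain ⟨g3, g4⟩ := hA b hb
  have hI1 : InInterval n (x + (a - b)) := by
    unfold InInterval
    rw [← hP]
    constructor
    · linarith
    · linarith
  refine ⟨ap_of _ _ _ (by linarith) k0, ap_of _ _ _ (by linarith) k1, hI1, ?_⟩
  unfold InInterval at hm ⊢
  rw [show n + 1 - 1 = n by omega, ← hP] at hm ⊢
  obtain ⟨hm3, hm4⟩ := hm
  rcases le_or_gt (m - (x + (a - b))) ((P : ℤ) + 1) with h | h
  · left
    exact ⟨by linarith, h⟩
  · right
    exact ⟨h.le, by linarith⟩

end Pool.Agent.Results.MP_484fb8_nt.GoldbachWithTwoFactors
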