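import Pool.Agent.H563.TG.PrimN

/-!
# The first summand in a thin set of primes, in the primorial intervals

`I_n = [#(n-1) + 1, #(n) + 1]` is the `n`-th primorial interval, `P_n` the set of its primes, `E_n` the set of its even numbers.

1. Two primes, almost all even numbers: for all numbers `k n` (`k n ≤ √#(n)`) there is a set `Q` of primes with at most `k n` elements
in `P_n` for every `n`, such that for all but `#(n+1) (12 exp (- c k n / log #(n)) + (log #(n+1)) ^ (- A))` of the `m` in `E_{n+1}`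
there are more than `c k n / log #(n)` representations `m = p + q` with `p` in `Q ∩ P_n` and `q` in `P_n ∪ P_{n+1}`, `q ≠ p`.

2. Almost primes, EVERY even number: for every `B` there is a set `Q` of primes with at most `K (log #(n)) ^ 2` elements in `P_n`,
such that for all large `n` every `m` in `E_{n+1}` has at least `B log m` representations `m = p + r` with `p` in `Q ∩ P_n`, `r` in
`I_n ∪ I_{n+1}` with at most three prime factors, all of them at least `m ^ (37 / 400) / 2`.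

3. In (1) the ratio `k n / log #(n)` has to tend to infinity in order to get almost all `m`: if `Q` has at most `A log #(n)`
elements in `P_n`, then a positive proportion `ε (A)` of the `m` in `E_{n+1}` has no such representation.
-/

set_option autoImplicit false

namespace Pool.Agent.Results.MP_484fb8_nt.ThinSetOfPrimes

open Finset

/-- the primorial `#(n) = p_1 ⋯ p_n` -/
noncomputable def prim (n : ℕ) : ℕ := ∏ i ∈ Finset.range n, Nat.nth Nat.Prime i

/-- the `n`-th primorial interval, `n ≥ 1` -/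
def interval (n : ℕ) : Set ℕ := {x | prim (n - 1) + 1 ≤ x ∧ x ≤ prim n + 1}

/-- the `p` in `Q`, in the `n`-th interval, such that `m = p + r` with `r` in the `n`-th or `(n + 1)`-st interval and with `F r p` -/
def reps (F : ℕ → ℕ → Prop) (Q : Set ℕ) (n m : ℕ) : Set ℕ :=
  {p | p ∈ Q ∧ p ∈ interval n ∧ ∃ r : ℕ, p + r = m ∧ (r ∈ interval n ∨ r ∈ interval (n + 1)) ∧ F r p}

/-- `r` is a prime different from `p` -/
def otherPrime (r p : ℕ) : Prop := r.Prime ∧ r ≠ p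

/-- `r` has at most three prime factors, all of them at least `m ^ (37 / 400) / 2` -/
def almostPrime (m r : ℕ) : Prop :=
  r.primeFactorsList.length ≤ 3 ∧ ∀ l : ℕ, l.Prime → l ∣ r → (m : ℝ) ^ (37 / 400 : ℝ) / 2 ≤ l

/-- the even numbers of the `n`-th interval with the property `T` -/
def evens (n : ℕ) (T : ℕ → Prop) : Set ℕ := {m | m ∈ interval n ∧ 2 ∣ m ∧ T m}

lemma prim_eq : prim = Pool.Agent.H563.TG.prim := rfl

lemma reps_fin (F : ℕ → ℕ → Prop) (Q : Set ℕ) (n m : ℕ) : (reps F Q n m).Finite := by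
  apply (Set.finite_lt_nat (m + 1)).subset
  rintro p ⟨_, _, r, h, _⟩
  show p < m + 1
  omega

lemma sub1 {n m : ℕ} (Q : Set ℕ) : Pool.Agent.H563.TG.repSetP Q n m ⊆ reps otherPrime Q n m := by
  rintro p ⟨h1, h2, h3, h4, h5, h6, h7, h8⟩
  refine ⟨h1, ⟨h2, h3⟩, m - p, by omega, ?_, h7, fun e => h8 e.symm⟩
  by_cases h : m - p ≤ prim n + 1
  · exact Or.inl ⟨h4, h⟩
  · refine Or.inr ⟨?_, h5⟩
    rw [Nat.add_sub_cancel]
    omega

lemma sub2 {n m : ℕ} (Q : Set ℕ) : reps otherPrime Q n m ⊆ Pool.Agent.H563.TG.repSetP Q n m := by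
  rintro p ⟨h1, ⟨h2, h3⟩, r, h4, h5, h6, h7⟩
  have hr : r = m - p := by omega
  have hr0 := h6.pos
  have h8 : prim (n - 1) ≤ prim n := Pool.Agent.H563.TG.prim_mono (by omega)
  have h9 : prim n ≤ prim (n + 1) := Pool.Agent.H563.TG.prim_mono (by omega)
  have h10 : prim (n - 1) + 1 ≤ r ∧ r ≤ prim (n + 1) + 1 := by
    rcases h5 with h5 | h5
    · exact ⟨h5.1, by have := h5.2; omega⟩
    · have h11 := h5.1
      rw [Nat.add_sub_cancel] at h11
      exact ⟨by omega, h5.2⟩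
  subst hr
  exact ⟨h1, h2, h3, h10.1, h10.2, by omega, h6, fun e => h7 e.symm⟩

lemma sub3 {n m : ℕ} (Q : Set ℕ) : Pool.Agent.H563.TG.repSet Q n m ⊆ reps (fun r _ => almostPrime m r) Q n m := by
  rintro p ⟨h1, h2, h3, h4, h5, h6, h7, h8⟩
  refine ⟨h1, ⟨h2, h3⟩, m - p, by omega, ?_, h7, ?_⟩
  · by_cases h : m - p ≤ prim n + 1
    · exact Or.inl ⟨h4, h⟩
    · refine Or.inr ⟨?_, h5⟩
      rw [Nat.add_sub_cancel]
      omega
  · intro l hl hlr
    have := h8 l hl hlr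
    norm_num at this ⊢
    exact this

theorem result :
    (∃ c : ℝ, 0 < c ∧ ∃ n₀ : ℕ → ℕ, ∀ k : ℕ → ℕ, (∀ n, k n ^ 2 ≤ prim n) →
      ∃ Q : Set ℕ, (∀ p ∈ Q, p.Prime) ∧ (∀ n, 1 ≤ n → {p | p ∈ Q ∧ p ∈ interval n}.ncard ≤ k n) ∧
        ∀ A n, n₀ A ≤ n →
          ((evens (n + 1) (fun m => ((reps otherPrime Q n m).ncard : ℝ) ≤ c * (k n / Real.log (prim n)))).ncard : ℝ) ≤
            prim (n + 1) * (12 * Real.exp (-(c * (k n / Real.log (prim n)))) + 1 / Real.log (prim (n + 1)) ^ A)) ∧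
    (∀ B : ℝ, 0 < B → ∃ K : ℝ, ∃ Q : Set ℕ, (∀ p ∈ Q, p.Prime) ∧
      (∀ n, 1 ≤ n → ({p | p ∈ Q ∧ p ∈ interval n}.ncard : ℝ) ≤ K * Real.log (prim n) ^ 2) ∧
      ∃ n₀ : ℕ, ∀ n, n₀ ≤ n → ∀ m ∈ interval (n + 1), 2 ∣ m →
        B * Real.log m ≤ ((reps (fun r _ => almostPrime m r) Q n m).ncard : ℝ)) ∧
    (∀ A : ℝ, 1 ≤ A → ∃ ε : ℝ, 0 < ε ∧ ∃ n₀ : ℕ, ∀ n, n₀ ≤ n → ∀ Q : Set ℕ, (∀ p ∈ Q, p.Prime) →
      ({p | p ∈ Q ∧ p ∈ interval n}.ncard : ℝ) ≤ A * Real.log (prim n) →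
      ε * prim (n + 1) ≤ ((evens (n + 1) (fun m => reps otherPrime Q n m = ∅)).ncard : ℝ)) := by
  classical
  refine ⟨?_, ?_, ?_⟩
  · obtain ⟨c, hc, n₀, h⟩ := Pool.Agent.H563.TG.primP
    refine ⟨c, hc, fun A => n₀ A + 1, ?_⟩
    intro k hk
    obtain ⟨Q, h1, h2, h3⟩ := h k hk
    refine ⟨Q, h1, h2, ?_⟩
    intro A n hn
    have hn' : n₀ A + 1 ≤ n := hn
    refine le_trans ?_ (h3 A n (by omega))
    rw [← Set.ncard_coe_finset]
    have hsub : evens (n + 1) (fun m => ((reps otherPrime Q n m).ncard : ℝ) ≤ c * (k n / Real.log (prim n))) ⊆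
        (((Icc (Pool.Agent.H563.TG.prim n + 1) (Pool.Agent.H563.TG.prim (n + 1) + 1)).filter (fun m => 2 ∣ m ∧
          ((Pool.Agent.H563.TG.repSetP Q n m).ncard : ℝ) ≤ c * (k n / Real.log (Pool.Agent.H563.TG.prim n))) : Finset ℕ) : Set ℕ) := by
      rintro m ⟨⟨g1, g2⟩, g3, g4⟩
      rw [mem_coe, mem_filter, mem_Icc]
      rw [Nat.add_sub_cancel] at g1
      refine ⟨⟨g1, g2⟩, g3, le_trans ?_ g4⟩
      exact_mod_cast Set.ncard_le_ncard (sub1 Q) (reps_fin _ _ _ _)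
    exact_mod_cast Set.ncard_le_ncard hsub (finite_toSet _)
  · intro B hB
    obtain ⟨K, Q, h1, h2, n₀, h3⟩ := Pool.Agent.H563.TG.prim3_all B hB
    refine ⟨K, Q, h1, h2, n₀ + 1, ?_⟩
    rintro n hn m ⟨g1, g2⟩ g3
    rw [Nat.add_sub_cancel] at g1
    refine (h3 n (by omega) m g1 g2 g3).trans ?_
    exact_mod_cast Set.ncard_le_ncard (sub3 Q) (reps_fin _ _ _ _)
  · intro A hA
    obtain ⟨ε, hε, n₀, h⟩ := Pool.Agent.H563.TG.primN A hA
    refine ⟨ε, hε, n₀, ?_⟩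
    intro n hn Q hQ hQc
    refine (h n hn Q hQ hQc).trans ?_
    have hsub : {m | Pool.Agent.H563.TG.prim n + 1 ≤ m ∧ m ≤ Pool.Agent.H563.TG.prim (n + 1) + 1 ∧ 2 ∣ m ∧
        Pool.Agent.H563.TG.repSetP Q n m = ∅} ⊆ evens (n + 1) (fun m => reps otherPrime Q n m = ∅) := by
      rintro m ⟨g1, g2, g3, g4⟩
      refine ⟨⟨by rw [Nat.add_sub_cancel]; exact g1, g2⟩, g3, ?_⟩
      exact Set.subset_eq_empty (sub2 Q) g4
    have hfin : (evens (n + 1) (fun m => reps otherPrime Q n m = ∅)).Finite := by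
      apply (Set.finite_lt_nat (prim (n + 1) + 2)).subset
      rintro m ⟨⟨_, g2⟩, _⟩
      show m < prim (n + 1) + 2
      omega
    exact_mod_cast Set.ncard_le_ncard hsub hfin

end Pool.Agent.Results.MP_484fb8_nt.ThinSetOfPrimes
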